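import Pool.Agent.H56.Ramsey.Top
import Pool.Agent.H95.Ramsey.Rows
import Pool.Agent.H95.Ramsey.Paley

/-!
# Ramsey bounds for colourings that are dense in all large vertex sets

A red/blue colouring of the edges of a complete graph is given by the simple graph `G` of its red
edges.  The hypothesis is that every set of at least `N ^ (s + δ)` of the `N` vertices has red
density at least `1 / 2 - δ`.
-/

open Finset Filter

namespace Pool.Agent.Results.MP_28724c_co.LocallyDenseColourings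

/-- `DenseRamsey s b`: for some `δ > 0` and all large `k`, every graph `G` on `N ≥ b ^ k`
vertices in which every set `Y` of at least `N ^ (s + δ)` vertices has edge density
`e(Y,Y) / |Y|^2 ≥ 1 / 2 - δ` contains a clique of size `k` or an independent set of size `k`. -/
def DenseRamsey (s b : ℝ) : Prop :=
  ∃ δ : ℝ, 0 < δ ∧ ∀ᶠ k : ℕ in atTop,
    ∀ (V : Type) [Fintype V] [DecidableEq V] (G : SimpleGraph V) [DecidableRel G.Adj],
      b ^ k ≤ (Fintype.card V : ℝ) →
      (∀ Y : Finset V, (Fintype.card V : ℝ) ^ (s + δ) ≤ (Y.card : ℝ) →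
        1 / 2 - δ ≤ (G.edgeDensity Y Y : ℝ)) →
      (∃ S : Finset V, G.IsNClique k S) ∨ (∃ S : Finset V, G.IsNIndepSet k S)

/-- The Paley graph of a finite field: `x` and `y` are adjacent if and only if `x ≠ y` and one
of `x - y`, `y - x` is a square (for `|F| = 1 mod 4` these two conditions agree). -/
def paleyGraph (F : Type) [Field F] : SimpleGraph F :=
  SimpleGraph.fromRel fun x y => IsSquare (x - y)

/-- The hypothesis for `s` is weaker than the hypothesis for `s' ≤ s`. -/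
theorem DenseRamsey.mono {s s' b : ℝ} (hb : 1 ≤ b) (h : DenseRamsey s b) (hs : s' ≤ s) :
    DenseRamsey s' b := by
  obtain ⟨δ, hδ, hev⟩ := h
  refine ⟨δ, hδ, hev.mono fun k hk V _ _ G _ hN hd => hk V G hN fun Y hY => hd Y ?_⟩
  refine le_trans ?_ hY
  have h1 : (1 : ℝ) ≤ Fintype.card V := le_trans (one_le_pow₀ hb) hN
  exact Real.rpow_le_rpow_of_exponent_le h1 (by linarith)

lemma interedges_card {V : Type} [DecidableEq V] (G : SimpleGraph V) [DecidableRel G.Adj]
    (Y : Finset V) : ((G.interedges Y Y).card : ℝ) = ∑ x ∈ Y, ∑ y ∈ Y, Pool.Agent.H92.ind G x y := by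
  rw [SimpleGraph.interedges_def, Finset.card_filter, Finset.sum_product]
  push_cast
  rfl

lemma sum_of_density {V : Type} [DecidableEq V] {G : SimpleGraph V} [DecidableRel G.Adj]
    {Y : Finset V} {β : ℝ} (h : β ≤ (G.edgeDensity Y Y : ℝ)) :
    β * Y.card * Y.card ≤ ∑ x ∈ Y, ∑ y ∈ Y, Pool.Agent.H92.ind G x y := by
  rw [← interedges_card]
  rcases Y.eq_empty_or_nonempty with rfl | hY
  · simp
  have hY0 : (0 : ℝ) < Y.card := by exact_mod_cast hY.card_pos
  rw [SimpleGraph.edgeDensity_def] at h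
  push_cast at h
  rw [le_div_iff₀ (by positivity)] at h
  linarith

lemma density_of_sum {V : Type} [DecidableEq V] {G : SimpleGraph V} [DecidableRel G.Adj]
    {Y : Finset V} {β : ℝ} (hY : Y.Nonempty)
    (h : β * (Y.card : ℝ) ^ 2 ≤ ((G.interedges Y Y).card : ℝ)) :
    β ≤ (G.edgeDensity Y Y : ℝ) := by
  have hY0 : (0 : ℝ) < Y.card := by exact_mod_cast hY.card_pos
  rw [SimpleGraph.edgeDensity_def]
  push_cast
  rw [le_div_iff₀ (by positivity)]
  linarith

lemma denseRamsey_of_row {d : Pool.Agent.H95.Ramsey.TD}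
    (hd : Pool.Agent.H95.Ramsey.rowChk Pool.Agent.H95.Ramsey.fam d = true) :
    DenseRamsey (Pool.Agent.H56.Ramsey.R d.s) (Pool.Agent.H56.Ramsey.R d.b) := by
  obtain ⟨_, δ, hδ, k0, h⟩ := Pool.Agent.H95.Ramsey.dense_of_rowChk
    Pool.Agent.H56.Ramsey.t1I Pool.Agent.H95.Ramsey.fam_ok hd
  refine ⟨δ, hδ, ?_⟩
  filter_upwards [eventually_ge_atTop k0] with k hk V _ _ G _ hN hY
  rcases h k hk V G hN (fun Y hYc => sum_of_density (hY Y hYc)) with h | ⟨S, hS⟩
  · exact Or.inl h
  · exact Or.inr ⟨S, (SimpleGraph.isNClique_compl _).1 hS⟩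

/-- The pairs `(s, b)` of the main theorem. -/
noncomputable def table : List (ℝ × ℝ) :=
  [(1 / 10, 2.131), (2 / 10, 2.271), (3 / 10, 2.426), (4 / 10, 2.595), (5 / 10, 2.77),
    (6 / 10, 2.945), (7 / 10, 3.107), (8 / 10, 3.25), (9 / 10, 3.367)]

lemma table_eq : Pool.Agent.H95.Ramsey.rows.map
    (fun d => (Pool.Agent.H56.Ramsey.R d.s, Pool.Agent.H56.Ramsey.R d.b)) = table := by
  unfold Pool.Agent.H95.Ramsey.rows table Pool.Agent.H56.Ramsey.R Pool.Agent.H56.Ramsey.SC
  norm_num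

theorem denseRamsey_table : ∀ p ∈ table, DenseRamsey p.1 p.2 := by
  intro p hp
  rw [← table_eq, List.mem_map] at hp
  obtain ⟨d, hd, rfl⟩ := hp
  have h := Pool.Agent.H95.Ramsey.rows_ok
  rw [List.all_eq_true] at h
  exact denseRamsey_of_row (h d hd)

theorem denseRamsey_half : DenseRamsey (1 / 2) 2.77 := by
  have h : ((5 / 10 : ℝ), (2.77 : ℝ)) ∈ table := by simp [table]
  have h1 := denseRamsey_table _ h
  have e : (5 / 10 : ℝ) = 1 / 2 := by norm_num
  rwa [e] at h1

lemma paleyGraph_eq (F : Type) [Field F] : paleyGraph F = Pool.Agent.H95.Ramsey.paleyGraph F :=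
  rfl

/-- the density hypothesis for Paley graphs -/
lemma paley_dense {δ : ℝ} (hδ : 0 < δ) : ∃ q₀ : ℕ, ∀ (F : Type) [Field F] [Fintype F]
    [DecidableEq F] [DecidableRel (paleyGraph F).Adj], q₀ ≤ Fintype.card F →
    Fintype.card F % 4 = 1 → ∀ Y : Finset F,
      (Fintype.card F : ℝ) ^ (1 / 2 + δ) ≤ (Y.card : ℝ) →
        1 / 2 - δ ≤ ((paleyGraph F).edgeDensity Y Y : ℝ) := by
  have h1 : Tendsto (fun q : ℕ => ((q : ℝ)) ^ δ) atTop atTop :=
    (tendsto_rpow_atTop hδ).comp tendsto_natCast_atTop_atTop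
  obtain ⟨q₀, hq₀⟩ := (h1.eventually_ge_atTop (1 / δ)).exists_forall_of_atTop
  refine ⟨q₀ + 1, ?_⟩
  intro F _ _ _ _ hF hF4 Y hY
  set q : ℝ := (Fintype.card F : ℝ) with hq
  have hq1 : (1 : ℝ) ≤ q := by
    have : 1 ≤ Fintype.card F := by omega
    rw [hq]; exact_mod_cast this
  have hq0 : 0 < q := by linarith
  have hd : 1 / δ ≤ q ^ δ := hq₀ _ (by omega)
  rw [div_le_iff₀ hδ] at hd
  have hsq : 1 ≤ Real.sqrt q := by
    rw [← Real.sqrt_one]; exact Real.sqrt_le_sqrt hq1
  rw [Real.rpow_add hq0, ← Real.sqrt_eq_rpow] at hY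
  have hY0 : (0 : ℝ) < Y.card := lt_of_lt_of_le (by positivity) hY
  have hYne : Y.Nonempty := by
    rw [← Finset.card_pos]; exact_mod_cast hY0
  refine density_of_sum hYne ?_
  refine le_trans ?_ (Pool.Agent.H95.Ramsey.paley_pairs hF4 (paleyGraph F) (paleyGraph_eq F) Y)
  have h2 : Real.sqrt q ≤ δ * Y.card := by
    calc Real.sqrt q = Real.sqrt q * 1 := (mul_one _).symm
      _ ≤ Real.sqrt q * (q ^ δ * δ) := by gcongr
      _ = δ * (Real.sqrt q * q ^ δ) := by ring
      _ ≤ δ * Y.card := by gcongr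
  have h3 : (1 + Real.sqrt q) * Y.card ≤ 2 * δ * (Y.card : ℝ) ^ 2 := by
    have : 1 + Real.sqrt q ≤ 2 * δ * Y.card := by linarith
    calc (1 + Real.sqrt q) * Y.card ≤ (2 * δ * Y.card) * Y.card := by gcongr
      _ = 2 * δ * (Y.card : ℝ) ^ 2 := by ring
  linarith

lemma log_lt : Real.log 2.77 * 0.6803 < Real.log 2 := by
  have h1 : Real.log 2.77 < 1.01888 := by
    rw [Real.log_lt_iff_lt_exp (by norm_num)]
    have h := ((Pool.Agent.H56.Ramsey.mem_R 1018880000000000000).exp (by decide +kernel)).le_of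
      (p := 2770050000000000000) (by decide +kernel)
    have hS : (Pool.Agent.H56.Ramsey.SC : ℝ) = 10 ^ 18 := by
      unfold Pool.Agent.H56.Ramsey.SC; norm_num
    have e : Pool.Agent.H56.Ramsey.R 1018880000000000000 = 1.01888 := by
      unfold Pool.Agent.H56.Ramsey.R
      rw [hS]; norm_num
    rw [hS, e] at h
    refine lt_of_lt_of_le ?_ h
    norm_num
  have h2 := Real.log_two_gt_d9
  nlinarith

/-- A consequence: Paley graphs have cliques of size at least `0.6803 log_2 q`. -/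
theorem paley_clique : ∃ q₀ : ℕ, ∀ (F : Type) [Field F] [Fintype F],
    q₀ ≤ Fintype.card F → Fintype.card F % 4 = 1 →
      ∃ S : Finset F, (paleyGraph F).IsClique S ∧
        0.6803 * Real.logb 2 (Fintype.card F) ≤ (S.card : ℝ) := by
  classical
  obtain ⟨δ, hδ, hev⟩ := denseRamsey_half
  obtain ⟨q₁, hq₁⟩ := paley_dense hδ
  obtain ⟨k₀, hk₀⟩ := eventually_atTop.1 hev
  have hlog2 : 0 < Real.log 2 := Real.log_pos (by norm_num)
  have hll := log_lt
  have hl0 : 0 < Real.log 2.77 := Real.log_pos (by norm_num)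
  -- a threshold for the logarithm
  set g : ℝ := Real.log 2 - Real.log 2.77 * 0.6803 with hg
  have hg0 : 0 < g := by rw [hg]; linarith
  have h1 : Tendsto (fun q : ℕ => Real.logb 2 (q : ℝ)) atTop atTop :=
    (Real.tendsto_logb_atTop (by norm_num)).comp tendsto_natCast_atTop_atTop
  obtain ⟨q₂, hq₂⟩ := ((h1.eventually_ge_atTop (Real.log 2.77 / g)).and
    (h1.eventually_ge_atTop (k₀ / 0.6803))).exists_forall_of_atTop
  refine ⟨max q₁ q₂ + 1, ?_⟩
  intro F _ _ hF hF4
  obtain ⟨hA, hB⟩ := hq₂ (Fintype.card F) (by omega)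
  set x : ℝ := Real.logb 2 (Fintype.card F) with hx
  have hc1 : 1 < Fintype.card F := Fintype.one_lt_card
  have hq0 : (0 : ℝ) < Fintype.card F := by
    have : 0 < Fintype.card F := by omega
    exact_mod_cast this
  rw [div_le_iff₀ hg0] at hA
  rw [div_le_iff₀ (by norm_num)] at hB
  have hx0 : 0 ≤ 0.6803 * x := by
    have : (0 : ℝ) ≤ k₀ := by positivity
    linarith
  set k : ℕ := ⌈0.6803 * x⌉₊ with hk
  have hk1 : 0.6803 * x ≤ k := Nat.le_ceil _
  have hk2 : (k : ℝ) < 0.6803 * x + 1 := Nat.ceil_lt_add_one hx0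
  have hkk : k₀ ≤ k := by
    have : (k₀ : ℝ) ≤ k := by linarith
    exact_mod_cast this
  have hN : (2.77 : ℝ) ^ k ≤ (Fintype.card F : ℝ) := by
    rw [← Real.exp_log (show (0:ℝ) < 2.77 by norm_num), ← Real.exp_nat_mul,
      ← Real.le_log_iff_exp_le hq0]
    have e : Real.log (Fintype.card F) = x * Real.log 2 := by
      rw [hx, Real.logb, div_mul_cancel₀ _ hlog2.ne']
    rw [e]
    have h3 : (k : ℝ) * Real.log 2.77 ≤ (0.6803 * x + 1) * Real.log 2.77 := by gcongr
    rw [hg] at hA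
    linarith
  have hfin : ∃ T : Finset F, (paleyGraph F).IsNClique k T := by
    rcases hk₀ k hkk F (paleyGraph F) hN (fun Y hY => hq₁ F (by omega) hF4 Y hY)
      with h | ⟨S, hS⟩
    · exact h
    · exact Pool.Agent.H95.Ramsey.paley_self_compl hF4 ((SimpleGraph.isNClique_compl _).2 hS)
  obtain ⟨T, hT⟩ := hfin
  refine ⟨T, hT.isClique, ?_⟩
  rw [hT.card_eq]
  exact hk1

/-- **Main theorem.** For `s = 1/10, ..., 9/10` and the corresponding base `b` of `table`
(for `s = 5/10` it is `2.77`), there is `δ > 0` such that for all large `k` every graph on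
`N ≥ b ^ k` vertices all of whose vertex sets of size at least `N ^ (s + δ)` have density at least
`1 / 2 - δ` has a clique or an independent set of size `k`. -/
theorem result : ∀ p ∈ table, DenseRamsey p.1 p.2 := denseRamsey_table

end Pool.Agent.Results.MP_28724c_co.LocallyDenseColourings
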